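import Mathlib

/-!
For any two distinct bases between 2 and 16 there is a number antipalindromic in both bases.
-/

namespace Pool.Agent.Results.MP_0a1a8e_nt.PairsUpTo16

/-- `m` is antipalindromic in base `b`: it is positive and the digits of its base `b` expansion
in mirror positions add up to `b - 1`. -/
def Antipalindromic (b m : ℕ) : Prop :=
  0 < m ∧ ∀ j < (Nat.digits b m).length,
    (Nat.digits b m).getD j 0 + (Nat.digits b m).getD ((Nat.digits b m).length - 1 - j) 0 = b - 1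

/-- the common antipalindromic numbers: row `b₁ - 2`, column `b₂ - b₁ - 1`. -/
def tbl : List (List ℕ) :=
  [
   [666, 12, 2, 10, 12, 42, 56, 3276, 2110, 2422838, 15696, 52, 42, 150],
   [6, 6372, 925, 57942, 21, 4, 72, 40, 66, 6, 36946, 1288611772, 60],
   [12, 1230, 12, 4032, 204, 90, 90, 1808212105244103978870, 6, 78, 27846, 90],
   [20, 12, 52766, 16, 7092, 20, 110, 8952, 9152, 168, 13020],
   [30, 43490045690, 596062600, 90492054970590, 20, 12760, 1660680, 59816652025, 1015, 30],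
   [42, 24, 18, 30, 195313470, 24, 970632, 42, 30],
   [56, 734438692703165562, 79205, 8964395902, 441653100, 7132580, 28, 16183440],
   [72, 40, 58233694239632912, 24, 202593196208, 56, 296902174182529048760583840],
   [90, 604593, 36, 1432907658, 7182, 45],
   [110, 60, 2686385, 70, 30],
   [132, 2740452, 9702, 1276110],
   [156, 84, 60],
   [182, 1892670],
   [210]
  ]

theorem check : ∀ b₁ < 17, ∀ b₂ < 17, (2 ≤ b₁ ∧ b₁ < b₂) →
    (0 < (tbl.getD (b₁ - 2) []).getD (b₂ - b₁ - 1) 0 ∧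
    (∀ j < (Nat.digits b₁ ((tbl.getD (b₁ - 2) []).getD (b₂ - b₁ - 1) 0)).length,
      (Nat.digits b₁ ((tbl.getD (b₁ - 2) []).getD (b₂ - b₁ - 1) 0)).getD j 0 +
      (Nat.digits b₁ ((tbl.getD (b₁ - 2) []).getD (b₂ - b₁ - 1) 0)).getD
        ((Nat.digits b₁ ((tbl.getD (b₁ - 2) []).getD (b₂ - b₁ - 1) 0)).length - 1 - j) 0
        = b₁ - 1) ∧
    (∀ j < (Nat.digits b₂ ((tbl.getD (b₁ - 2) []).getD (b₂ - b₁ - 1) 0)).length,
      (Nat.digits b₂ ((tbl.getD (b₁ - 2) []).getD (b₂ - b₁ - 1) 0)).getD j 0 +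
      (Nat.digits b₂ ((tbl.getD (b₁ - 2) []).getD (b₂ - b₁ - 1) 0)).getD
        ((Nat.digits b₂ ((tbl.getD (b₁ - 2) []).getD (b₂ - b₁ - 1) 0)).length - 1 - j) 0
        = b₂ - 1)) := by
  decide +kernel

/-- For any two bases `2 ≤ b₁ < b₂ ≤ 16` some positive integer is antipalindromic in both. -/
theorem result (b₁ b₂ : ℕ) (h₁ : 2 ≤ b₁) (h₁₂ : b₁ < b₂) (h₂ : b₂ ≤ 16) :
    ∃ m : ℕ, 0 < m ∧ Antipalindromic b₁ m ∧ Antipalindromic b₂ m := by
  obtain ⟨h0, h3, h4⟩ := check b₁ (by omega) b₂ (by omega) ⟨h₁, h₁₂⟩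
  exact ⟨_, h0, ⟨h0, h3⟩, ⟨h0, h4⟩⟩

end Pool.Agent.Results.MP_0a1a8e_nt.PairsUpTo16
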